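import Pool.Agent.H60.CM.Basic

/-!
# (HOP) the Hopf lemma
-/

set_option autoImplicit false

open Set Function MeasureTheory Filter Topology
open scoped Manifold ContDiff Matrix

open Pool.Agent.H60.CM

namespace Pool.Agent.H47.CM

/-- the barrier -/
noncomputable def Eb (α : ℝ) (o : E2) (z : E2) : ℝ := Real.exp (-α * dist z o ^ 2)

theorem Eb_contDiff (α : ℝ) (o : E2) : ContDiff ℝ ∞ (Eb α o) := by
  have h : Eb α o = fun z => Real.exp (-α * ‖z - o‖ ^ 2) := by
    funext z
    unfold Eb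
    rw [dist_eq_norm]
  rw [h]
  exact Real.contDiff_exp.comp (contDiff_const.mul ((contDiff_id.sub contDiff_const).norm_sq ℝ))

theorem Eb_fderiv (α : ℝ) (o z : E2) :
    fderiv ℝ (Eb α o) z (o - z) = 2 * α * dist z o ^ 2 * Real.exp (-α * dist z o ^ 2) := by
  have h1 : HasDerivAt (fun t : ℝ => z + t • (o - z)) (o - z) 0 := by
    have h0 : HasDerivAt (fun t : ℝ => t • (o - z)) ((1 : ℝ) • (o - z)) 0 :=
      (hasDerivAt_id (0 : ℝ)).smul_const (o - z)
    rw [one_smul] at h0
    exact h0.const_add z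
  have h2 : HasFDerivAt (Eb α o) (fderiv ℝ (Eb α o) (z + (0 : ℝ) • (o - z)))
      (z + (0 : ℝ) • (o - z)) :=
    ((Eb_contDiff α o).differentiable (by simp) _).hasFDerivAt
  have h3 := h2.comp_hasDerivAt (0 : ℝ) h1
  have e0 : z + (0 : ℝ) • (o - z) = z := by rw [zero_smul, add_zero]
  rw [e0] at h3
  have h4 : (Eb α o ∘ fun t : ℝ => z + t • (o - z)) =
      fun t : ℝ => Real.exp (-α * ((1 - t) ^ 2 * dist z o ^ 2)) := by
    funext t
    unfold Eb
    simp only [comp_apply]
    congr 2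
    have : z + t • (o - z) - o = (1 - t) • (z - o) := by
      rw [sub_smul, one_smul, smul_sub, smul_sub]
      abel
    rw [dist_eq_norm, this, norm_smul, mul_pow, Real.norm_eq_abs, sq_abs, dist_eq_norm]
  rw [h4] at h3
  have h5 : HasDerivAt (fun t : ℝ => Real.exp (-α * ((1 - t) ^ 2 * dist z o ^ 2)))
      (Real.exp (-α * ((1 - 0) ^ 2 * dist z o ^ 2)) *
        (-α * ((2 * (1 - 0) ^ 1 * (-1)) * dist z o ^ 2))) 0 := by
    have h6 : HasDerivAt (fun t : ℝ => (1 - t) ^ 2) (2 * (1 - 0) ^ 1 * (-1)) 0 := by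
      have h7 : HasDerivAt (fun t : ℝ => 1 - t) (-1) 0 := (hasDerivAt_id (0 : ℝ)).const_sub 1
      have h8 := h7.pow 2
      norm_num at h8 ⊢
      exact h8
    exact ((h6.mul_const (dist z o ^ 2)).const_mul (-α)).exp
  have h9 := h3.unique h5
  rw [h9]
  have : (1 - 0 : ℝ) = 1 := by norm_num
  rw [this]
  ring_nf

theorem pd_aff (m e : ℝ) (f : E2 → ℝ) (y : E2) (hf : DifferentiableAt ℝ f y) (i : Fin 2) :
    pd (fun z => m * (f z - e)) y i = m * pd f y i := by
  unfold pd
  have h : HasFDerivAt (fun z => m * (f z - e)) (m • fderiv ℝ f y) y :=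
    (hf.hasFDerivAt.sub_const e).const_mul m
  rw [h.fderiv]
  rfl

theorem pd_mulc (m : ℝ) (f : E2 → ℝ) (y : E2) (hf : DifferentiableAt ℝ f y) (i : Fin 2) :
    pd (fun z => m * f z) y i = m * pd f y i := by
  unfold pd
  have h : HasFDerivAt (fun z => m * f z) (m • fderiv ℝ f y) y := hf.hasFDerivAt.const_mul m
  rw [h.fderiv]
  rfl

theorem pd_diff {f : E2 → ℝ} (hf : ContDiff ℝ ∞ f) (i : Fin 2) : Differentiable ℝ fun z => pd f z i := by
  have h : ContDiff ℝ 1 fun z => fderiv ℝ f z := hf.fderiv_right (m := 1) (by norm_cast)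
  exact (h.differentiable (by simp)).clm_apply (differentiable_const _)

theorem Lab_aff {O : Set E2} {a b c : E2 → ℝ} (hE : Ell O a b c) (m e : ℝ) {f : E2 → ℝ}
    (hf : ContDiff ℝ ∞ f) {y : E2} (hy : y ∈ O) :
    Lab a b c (fun z => m * (f z - e)) y = m * Lab a b c f y := by
  have hd : ∀ z, DifferentiableAt ℝ f z := fun z => hf.differentiable (by simp) z
  have e1 : ∀ i, (fun z => pd (fun z => m * (f z - e)) z i) = fun z => m * pd f z i := fun i => by
    funext z
    exact pd_aff m e f z (hd z) i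
  have ha : DifferentiableAt ℝ a y := (hE.sa.contDiffAt (hE.isOpen.mem_nhds hy)).differentiableAt
    (by simp)
  have hb : DifferentiableAt ℝ b y := (hE.sb.contDiffAt (hE.isOpen.mem_nhds hy)).differentiableAt
    (by simp)
  have hc : DifferentiableAt ℝ c y := (hE.sc.contDiffAt (hE.isOpen.mem_nhds hy)).differentiableAt
    (by simp)
  have hp : ∀ i, DifferentiableAt ℝ (fun z => pd f z i) y := fun i => pd_diff hf i y
  have e2 : (fun z => a z * pd (fun z => m * (f z - e)) z 0 +
      b z * pd (fun z => m * (f z - e)) z 1) = fun z => m * (a z * pd f z 0 + b z * pd f z 1) := by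
    funext z
    rw [pd_aff m e f z (hd z), pd_aff m e f z (hd z)]
    ring
  have e3 : (fun z => b z * pd (fun z => m * (f z - e)) z 0 +
      c z * pd (fun z => m * (f z - e)) z 1) = fun z => m * (b z * pd f z 0 + c z * pd f z 1) := by
    funext z
    rw [pd_aff m e f z (hd z), pd_aff m e f z (hd z)]
    ring
  have e4 := pd_mulc m (fun z => a z * pd f z 0 + b z * pd f z 1) y
    ((ha.mul (hp 0)).add (hb.mul (hp 1))) 0
  have e5 := pd_mulc m (fun z => b z * pd f z 0 + c z * pd f z 1) y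
    ((hb.mul (hp 0)).add (hc.mul (hp 1))) 1
  unfold Lab
  rw [e2, e3, e4, e5]
  ring

theorem decomp (v : E2) : v = v 0 • ee 0 + v 1 • ee 1 := by
  ext i
  fin_cases i <;> simp [ee]

theorem pf_HOP (h1 : T_BAR) (h2 : T_CMP) : T_HOP := by
  intro O a b c hE o R hR hO φ hφ hpos z hz hφz
  obtain ⟨α, hα, hbar⟩ := h1 O a b c hE o R hR hO
  have hcont : ContinuousOn φ O := hφ.continuousOn
  -- the lower bound on the inner sphere
  have hsub : Metric.sphere o (R / 2) ⊆ O := fun y hy => hO (by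
    rw [Metric.mem_closedBall]
    rw [Metric.mem_sphere] at hy
    linarith)
  obtain ⟨y0, hy0, hmin⟩ := (isCompact_sphere o (R / 2)).exists_isMinOn
    (NormedSpace.sphere_nonempty.2 (by linarith)) (hcont.mono hsub)
  have hm0 : 0 < φ y0 := (hpos y0 (by
    rw [Metric.mem_sphere] at hy0
    linarith)).1
  obtain ⟨m, hm⟩ : ∃ m : ℝ, m = φ y0 := ⟨_, rfl⟩
  rw [← hm] at hm0
  obtain ⟨w, hw⟩ : ∃ w : E2 → ℝ, w = fun y => m * (Eb α o y - Real.exp (-α * R ^ 2)) := ⟨_, rfl⟩
  have hwc : ContDiff ℝ ∞ w := by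
    rw [hw]
    exact contDiff_const.mul ((Eb_contDiff α o).sub contDiff_const)
  have hw0 : ∀ y, dist y o = R → w y = 0 := by
    intro y hy
    rw [hw]
    simp only [Eb]
    rw [hy, sub_self, mul_zero]
  have hle1 : ∀ y, w y ≤ m := by
    intro y
    rw [hw]
    have h3 : Eb α o y ≤ 1 := Real.exp_le_one_iff.2 (by
      have := sq_nonneg (dist y o)
      nlinarith)
    have h4 := Real.exp_pos (-α * R ^ 2)
    have h5 : Eb α o y - Real.exp (-α * R ^ 2) ≤ 1 := by linarith
    calc m * (Eb α o y - Real.exp (-α * R ^ 2)) ≤ m * 1 := mul_le_mul_of_nonneg_left h5 hm0.le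
      _ = m := mul_one m
  have hcl : ∀ y, dist y o ≤ R → 0 ≤ φ y := by
    intro y hy
    have hy' : y ∈ closure (Metric.ball o R) := by
      rw [closure_ball o hR.ne']
      exact hy
    refine ContinuousWithinAt.closure_le (f := fun _ => (0 : ℝ)) hy' continuousWithinAt_const
      ((hcont y (hO hy)).mono (Metric.ball_subset_closedBall.trans hO)) fun u hu => (hpos u hu).1.le
  have hcmp := h2 O a b c hE o R hR hO φ w hφ hwc.contDiffOn
    (fun y hy => (hle1 y).trans (by
      rw [hm]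
      exact hmin (Metric.mem_sphere.2 hy)))
    (fun y hy => by
      rw [hw0 y hy]
      exact hcl y hy.le)
    (fun y hy1 hy2 => ⟨(hpos y hy2).2, by
      rw [hw, Lab_aff hE m _ (Eb_contDiff α o) (hO (Metric.mem_closedBall.2 hy2.le))]
      exact mul_pos hm0 (hbar y hy1.le hy2.le)⟩)
  -- the derivative at z
  have hzO : z ∈ O := hO (Metric.mem_closedBall.2 hz.le)
  have hφd : DifferentiableAt ℝ φ z := (hφ.contDiffAt (hE.isOpen.mem_nhds hzO)).differentiableAt
    (by simp)
  have hwd : DifferentiableAt ℝ w z := hwc.differentiable (by simp) z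
  obtain ⟨A, hA⟩ : ∃ A : Set E2, A = {y | R / 2 ≤ dist y o ∧ dist y o ≤ R} := ⟨_, rfl⟩
  have hmin2 : IsLocalMinOn (fun y => φ y - w y) A z := by
    refine Filter.eventually_of_mem self_mem_nhdsWithin fun y hy => ?_
    rw [hA] at hy
    change φ z - w z ≤ φ y - w y
    rw [hφz, hw0 z hz, sub_self]
    exact sub_nonneg.2 (hcmp y hy.1 hy.2)
  have hseg : segment ℝ z (z + (1 / 2 : ℝ) • (o - z)) ⊆ A := by
    intro y hy
    rw [segment_eq_image'] at hy
    obtain ⟨t, ⟨ht0, ht1⟩, rfl⟩ := hy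
    have e1 : z + t • (z + (1 / 2 : ℝ) • (o - z) - z) - o = (1 - t / 2) • (z - o) := by
      rw [add_sub_cancel_left, smul_smul, sub_smul, one_smul]
      have : (t / 2) • (z - o) = -((t * (1 / 2)) • (o - z)) := by
        rw [← smul_neg, neg_sub]
        congr 1
        ring
      rw [this]
      abel
    have e2 : dist (z + t • (z + (1 / 2 : ℝ) • (o - z) - z)) o = (1 - t / 2) * R := by
      rw [dist_eq_norm, e1, norm_smul, ← dist_eq_norm z o, hz, Real.norm_eq_abs, abs_of_nonneg]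
      linarith
    rw [hA]
    change R / 2 ≤ dist _ o ∧ dist _ o ≤ R
    rw [e2]
    constructor <;> nlinarith
  have hder : HasFDerivWithinAt (fun y => φ y - w y) (fderiv ℝ φ z - fderiv ℝ w z) A z :=
    (hφd.hasFDerivAt.sub hwd.hasFDerivAt).hasFDerivWithinAt
  have hnn := hmin2.hasFDerivWithinAt_nonneg hder (mem_posTangentConeAt_of_segment_subset hseg)
  rw [map_smul, sub_apply, smul_eq_mul] at hnn
  have hwv : 0 < fderiv ℝ w z (o - z) := by
    have h3 : HasFDerivAt w (m • fderiv ℝ (Eb α o) z) z := by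
      rw [hw]
      exact (((Eb_contDiff α o).differentiable (by simp) z).hasFDerivAt.sub_const _).const_mul m
    rw [h3.fderiv, smul_apply, Eb_fderiv, hz, smul_eq_mul]
    positivity
  have hφv : 0 < fderiv ℝ φ z (o - z) := by linarith
  by_contra hcon
  rw [not_or, not_not, not_not] at hcon
  have h4 : fderiv ℝ φ z (o - z) = 0 := by
    rw [decomp (o - z), map_add, map_smul, map_smul]
    have h5 : fderiv ℝ φ z (ee 0) = 0 := hcon.1
    have h6 : fderiv ℝ φ z (ee 1) = 0 := hcon.2
    rw [h5, h6, smul_zero, smul_zero, add_zero]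
  exact hφv.ne' h4

end Pool.Agent.H47.CM
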