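import Pool.Agent.H88.CM.Targets

/-!
# (TRM) the chart changes
-/

set_option autoImplicit false

open Set Function Topology Metric Filter
open scoped Manifold
open Pool.Agent.H88.CL Pool.Agent.H88.CM

namespace Pool.Agent.H47.CM

theorem pf_TRM (h : T_LOC) : T_TRM := by
  intro d M _ _ _ _ _ n A Kh r hG
  have hid : DM d (id : M → M) id :=
    ⟨contMDiff_id, contMDiff_id, fun _ => rfl, fun _ => rfl⟩
  obtain ⟨r1, L, hr1, -, hL, hloc⟩ := h d M n A Kh r hG id id hid
  refine ⟨r1 / 2, L, by linarith, hL, fun i j v v' hv hs hk hvv => ?_⟩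
  have hvt : v ∈ (A i).target := hG.sub i hv
  have hAv : A i ((A i).symm v) = v := (A i).right_inv hvt
  obtain ⟨h1, h2, h3, -, -⟩ := hloc i j ((A i).symm v) ((A i).map_target hvt)
    (by rw [hAv]; exact hv) hs hk
  rw [hAv] at h1 h2 h3
  have hv0 : v ∈ ball v r1 := mem_ball_self hr1
  have hv1 : v' ∈ ball v r1 := by
    rw [mem_ball, dist_eq_norm]
    linarith
  obtain ⟨h4, h5⟩ := h2 v' hv1
  refine ⟨h4, h5, ?_⟩
  exact Convex.norm_image_sub_le_of_norm_fderiv_le (f := rep (A i) (A j) id) (𝕜 := ℝ)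
    (fun x hx => (h1.contDiffAt (isOpen_ball.mem_nhds hx)).differentiableAt (by norm_num))
    h3 (convex_ball v r1) hv0 hv1

end Pool.Agent.H47.CM
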